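import Pool.Agent.N110.CC.RStm
import Pool.Agent.R887.Num

/-!
# Project CC, leaf PSUP: pull back of pseudo-effective divisors

(helper340 for helper110)
-/

set_option autoImplicit false
set_option linter.overlappingInstances false
set_option linter.unusedSectionVars false

open FF Module MvPolynomial Pool.Agent.W602.GT Pool.Agent.W603.LV
open Pool.Agent.Y172 Pool.Agent.Y191 Pool.Agent.R887 Pool.Agent.W619.PQ
open Pool.Agent.N110 Pool.Agent.N110.CC

namespace Pool.Agent.N340.CC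

theorem leafPSUP : S_PSUP := by
  intro K K' _ _ _ _ N N' n y y' hy hy' hn hn' _ π hπ L hL
  have hess := hy.ess
  have hess' := hy'.ess
  let _ : Algebra K K' := π.toRingHom.toAlgebra
  have hst : IsScalarTower ℂ K K' :=
    IsScalarTower.of_algebraMap_eq fun c => (π.commutes c).symm
  have hfd : FiniteDimensional K K' := finite_map hn hn'
  have hov : ∀ Q : Place ℂ K', LiesOver π Q (bel K Q) (ram K Q) := fun Q => over_bel K Q
  have hbel : ∀ Q : Place ℂ K', IsPrimeDivisor y' Q → IsPrimeDivisor y (bel K Q) :=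
    fun Q hQ => (hπ Q _ _ (hov Q)).1 hQ
  have hfin : ∀ D : Place ℂ K → ℚ, {P | IsPrimeDivisor y P ∧ D P ≠ 0}.Finite →
      {Q : Place ℂ K' | IsPrimeDivisor y' Q ∧ (ram K Q : ℚ) * D (bel K Q) ≠ 0}.Finite := by
    intro D hD
    refine (finite_bel (K := K) (L := K') hD).subset ?_
    rintro Q ⟨hQ, h0⟩
    exact ⟨hbel Q hQ, right_ne_zero_of_mul h0⟩
  refine ⟨fun Q => (ram K Q : ℚ) * L (bel K Q), hfin L hL, ?_, ?_⟩
  · intro Q P e _ h
    obtain ⟨h1, h2⟩ := bel_eq K (Q := Q) (P := P) (e := e) h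
    change (ram K Q : ℚ) * L (bel K Q) = e * L P
    rw [h1, h2]
  · intro hP i' hi' q hq
    obtain ⟨i, hi⟩ := hy.ne
    obtain ⟨A, hA, hAP⟩ := exists_hyp hy hi
    obtain ⟨A', hA', hAP'⟩ := exists_hyp hy' hi'
    have hA1 : Effective y' (fun Q => (ram K Q : ℚ) * A (bel K Q)) :=
      ⟨fun Q hQ => mul_nonneg (Nat.cast_nonneg _) (hA.1 _ (hbel Q hQ)), hfin A hA.2⟩
    obtain ⟨f1, s, hf1, hs⟩ := Pool.Agent.N110.dominate hy' hA1 hi' hA' hAP'
    obtain ⟨m, hm, f, hf, hmf⟩ := hP i hi (q * (s + 1)) (Nat.mul_pos hq (Nat.succ_pos s))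
    have hπf : π f ≠ 0 := by rwa [Ne, map_eq_zero]
    refine ⟨m * (s + 1), Nat.mul_pos hm (Nat.succ_pos s), π f * f1 ^ m,
      mul_ne_zero hπf (pow_ne_zero _ hf1), ?_⟩
    intro Q l' hQ hl'
    obtain ⟨l, hl⟩ := exists_centred hy (bel K Q)
    have h1 := hmf (bel K Q) l (hbel Q hQ) hl
    rw [← hAP (bel K Q) l (hbel Q hQ) hl] at h1
    have h2 := hs Q hQ
    have h3 : Q.ord (π f) = ram K Q * (bel K Q).ord f := (hov Q).2 f
    have h4 : Q.ord (π f * f1 ^ m) = ram K Q * (bel K Q).ord f + m * Q.ord f1 := by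
      rw [Q.ord_mul hπf (pow_ne_zero _ hf1), Q.ord_pow, h3]
    rw [h4, ← hAP' Q l' hQ hl']
    have h5 : (0 : ℚ) ≤ ram K Q := Nat.cast_nonneg _
    have h6 := mul_nonneg h5 h1
    have h7 := hA'.1 Q hQ
    have h8 : (0 : ℚ) ≤ m := Nat.cast_nonneg _
    have h9 := mul_le_mul_of_nonneg_left h2 h8
    have h10 := mul_nonneg h8 h7
    push_cast at h6 h9 ⊢
    nlinarith

end Pool.Agent.N340.CC
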