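import Pool.Agent.N110.CC.VStm
import Pool.Agent.N110.CC.Str
import Pool.Agent.N110.NV.Lim
import Pool.Agent.N386.CC.PF
import Pool.Agent.N707.CC.CE
import Pool.Agent.N395.CC.SEP
import Pool.Agent.N769.CC.LIN
import Pool.Agent.N394.CC.IND

/-!
# Project CC, leaf VINT: rigidity on rational subspaces

(helper340 for helper110)
-/

set_option autoImplicit false
set_option linter.unusedSectionVars false

open Pool.Agent.N110 Pool.Agent.N110.NV Pool.Agent.N110.CC
open Pool.Agent.N165.KM (interior_add_mem interior_smul_mem interior_sub exists_pos_functional)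

namespace Pool.Agent.N340.CC

section

variable {ρ : ℕ}

/-- integral vectors as rational vectors -/
def toQ (x : Fin ρ → ℤ) : Fin ρ → ℚ := fun i => (x i : ℚ)

/-- integral vectors as real vectors -/
def toRz (x : Fin ρ → ℤ) : Fin ρ → ℝ := fun i => (x i : ℝ)

/-- `toQ` as a linear map -/
def toQl : (Fin ρ → ℤ) →ₗ[ℤ] (Fin ρ → ℚ) where
  toFun := toQ
  map_add' x y := by funext i; simp [toQ]
  map_smul' a x := by funext i; simp [toQ]

/-- the integral vectors of `V` -/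
def lat (V : Submodule ℚ (Fin ρ → ℚ)) : Submodule ℤ (Fin ρ → ℤ) where
  carrier := {x | toQ x ∈ V}
  zero_mem' := by
    have : toQ (0 : Fin ρ → ℤ) = 0 := map_zero toQl
    show toQ (0 : Fin ρ → ℤ) ∈ V
    rw [this]; exact V.zero_mem
  add_mem' := by
    intro x y hx hy
    have : toQ (x + y) = toQ x + toQ y := map_add toQl x y
    show toQ (x + y) ∈ V
    rw [this]; exact V.add_mem hx hy
  smul_mem' := by
    intro a x hx
    have : toQ (a • x) = (a : ℚ) • toQ x := by funext i; simp [toQ]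
    show toQ (a • x) ∈ V
    rw [this]; exact V.smul_mem _ hx

theorem mem_lat {V : Submodule ℚ (Fin ρ → ℚ)} {x : Fin ρ → ℤ} : x ∈ lat V ↔ toQ x ∈ V := Iff.rfl

/-- a common denominator -/
theorem common (q : Fin ρ → ℚ) : ∃ (d : ℕ) (x : Fin ρ → ℤ), 0 < d ∧ toQ x = (d : ℚ) • q := by
  classical
  refine ⟨∏ i, (q i).den, fun i => ((∏ i, (q i).den : ℕ) / (q i).den : ℕ) * (q i).num,
    Finset.prod_pos fun i _ => (q i).den_pos, ?_⟩
  funext i
  obtain ⟨k, hk⟩ : (q i).den ∣ ∏ i, (q i).den := Finset.dvd_prod_of_mem _ (Finset.mem_univ i)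
  rw [Pi.smul_apply, smul_eq_mul]
  unfold toQ
  beta_reduce
  rw [hk, Nat.mul_div_cancel_left _ (q i).den_pos]
  push_cast
  have h2 : ((q i).den : ℚ) * q i = (q i).num := Rat.den_mul_eq_num (q i)
  linear_combination -(k : ℚ) * h2

/-- a basis of the integral vectors -/
theorem exists_basis (V : Submodule ℚ (Fin ρ → ℚ)) {m : ℕ} (hV : Module.finrank ℚ V = m) :
    ∃ s : Module.Basis (Fin m) ℤ (lat V),
      LinearIndependent ℚ (fun i => toQ (s i : Fin ρ → ℤ)) ∧
      ∀ q ∈ V, ∃ c : Fin m → ℚ, q = ∑ i, c i • toQ (s i : Fin ρ → ℤ) := by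
  classical
  obtain ⟨n, ⟨s⟩⟩ := Submodule.nonempty_basis_of_pid (Pi.basisFun ℤ (Fin ρ)) (lat V)
  have hli : LinearIndependent ℚ (fun i => toQ (s i : Fin ρ → ℤ)) := by
    rw [← LinearIndependent.iff_fractionRing ℤ ℚ]
    have h1 : LinearIndependent ℤ (fun i => (s i : Fin ρ → ℤ)) :=
      s.linearIndependent.map' (lat V).subtype (Submodule.ker_subtype _)
    have h2 := h1.map' (toQl (ρ := ρ)) (by
      rw [LinearMap.ker_eq_bot]
      intro x y hxy
      funext i
      have h3 := congrFun hxy i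
      have h4 : ((x i : ℤ) : ℚ) = ((y i : ℤ) : ℚ) := h3
      exact_mod_cast h4)
    exact h2
  have hspan : ∀ q ∈ V, ∃ c : Fin n → ℚ, q = ∑ i, c i • toQ (s i : Fin ρ → ℤ) := by
    intro q hq
    obtain ⟨d, x, hd, hx⟩ := common q
    have hxV : x ∈ lat V := by
      rw [mem_lat, hx]
      exact V.smul_mem _ hq
    have h1 := congrArg (fun z : lat V => toQl (z : Fin ρ → ℤ)) (s.sum_repr ⟨x, hxV⟩)
    simp only [Submodule.coe_sum, Submodule.coe_smul, map_sum, map_smul] at h1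
    have hd' : (d : ℚ) ≠ 0 := by exact_mod_cast hd.ne'
    refine ⟨fun i => (d : ℚ)⁻¹ * (s.repr ⟨x, hxV⟩ i : ℚ), ?_⟩
    have h2 : q = (d : ℚ)⁻¹ • toQ x := by
      rw [hx, smul_smul, inv_mul_cancel₀ hd', one_smul]
    have h3 : toQ x = ∑ i, (s.repr ⟨x, hxV⟩ i : ℚ) • toQ (s i : Fin ρ → ℤ) := by
      have h4 : toQl x = toQ x := rfl
      rw [← h4, ← h1]
      refine Finset.sum_congr rfl fun i _ => ?_
      have h5 : toQl (s i : Fin ρ → ℤ) = toQ (s i : Fin ρ → ℤ) := rfl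
      rw [h5, Int.cast_smul_eq_zsmul]
    rw [h2, h3, Finset.smul_sum]
    refine Finset.sum_congr rfl fun i _ => ?_
    rw [smul_smul]
  have hn : n = m := by
    have h1 : Submodule.span ℚ (Set.range fun i => toQ (s i : Fin ρ → ℤ)) = V := by
      apply le_antisymm
      · rw [Submodule.span_le]
        rintro _ ⟨i, rfl⟩
        exact (s i).2
      · intro q hq
        obtain ⟨c, hc⟩ := hspan q hq
        rw [hc]
        exact Submodule.sum_mem _ fun i _ => Submodule.smul_mem _ _ (Submodule.subset_span ⟨i, rfl⟩)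
    have h2 := finrank_span_eq_card hli
    rw [h1, hV, Fintype.card_fin] at h2
    exact h2.symm
  subst hn
  exact ⟨s, hli, hspan⟩

end

theorem toR_toQ {ρ : ℕ} (x : Fin ρ → ℤ) : toR (toQ x) = toRz x := by
  funext i
  unfold toR toQ toRz
  push_cast
  rfl

theorem TR_toRz {ρ : ℕ} (M : Matrix (Fin ρ) (Fin ρ) ℤ) (x : Fin ρ → ℤ) :
    TR M (toRz x) = toRz (M.mulVec x) := TR_cast M x

theorem toQ_mulVec {ρ : ℕ} (M : Matrix (Fin ρ) (Fin ρ) ℤ) (x : Fin ρ → ℤ) :
    toQ (M.mulVec x) = (M.map (Int.cast : ℤ → ℚ)).mulVec (toQ x) := by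
  funext i
  simp [toQ, Matrix.mulVec, dotProduct]

theorem leafVINT : S_VINT := by
  classical
  intro ρ r hr C hC M hM0 hMadd hpres hgrow V hV hVinv hq0 q hq hqC hqne
  obtain ⟨s, hli, hspan⟩ := exists_basis V hV
  -- the real embedding
  obtain ⟨e, he⟩ : ∃ e : Fin (r + 1) → Fin ρ → ℝ, e = fun i => toRz (s i : Fin ρ → ℤ) := ⟨_, rfl⟩
  have hei : ∀ i, e i = toRz (s i : Fin ρ → ℤ) := fun i => by rw [he]
  have hliR : LinearIndependent ℝ e := by
    have h1 := (rat ρ (Fin (r + 1)) _ hli).1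
    have h2 : (fun j => fun i => ((toQ (s j : Fin ρ → ℤ) i : ℚ) : ℝ)) = e := by
      funext j
      rw [hei, ← toR_toQ]
      rfl
    rwa [h2] at h1
  obtain ⟨ι, hι⟩ : ∃ ι : (Fin (r + 1) → ℝ) →ₗ[ℝ] (Fin ρ → ℝ), ∀ t, ι t = ∑ i, t i • e i :=
    ⟨Fintype.linearCombination ℝ e, fun t => Fintype.linearCombination_apply ℝ e t⟩
  have hιinj : ∀ t, ι t = 0 → t = 0 := by
    intro t ht
    rw [hι] at ht
    exact funext fun i => Fintype.linearIndependent_iff.1 hliR t ht i
  have hιs : ∀ j, ι (Pi.single j 1) = e j := by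
    intro j
    rw [hι, Finset.sum_eq_single j]
    · simp
    · intro i _ hij
      rw [Pi.single_eq_of_ne hij, zero_smul]
    · intro h
      exact absurd (Finset.mem_univ _) h
  have hιc : Continuous ι := LinearMap.continuous_of_finiteDimensional ι
  -- the vectors of V
  have hVι : ∀ x ∈ V, ∃ c : Fin (r + 1) → ℚ, toR x = ι (toR c) := by
    intro x hx
    obtain ⟨c, hc⟩ := hspan x hx
    refine ⟨c, ?_⟩
    rw [hι, hc, toR_sum]
    refine Finset.sum_congr rfl fun i _ => ?_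
    rw [toR_smul, toR_toQ, hei]
    rfl
  -- the action on the lattice
  have hlat : ∀ v, ∀ x ∈ lat V, (M v).mulVecLin x ∈ lat V := by
    intro v x hx
    rw [mem_lat, Matrix.mulVecLin_apply, toQ_mulVec]
    exact hVinv v _ hx
  obtain ⟨A, hA⟩ : ∃ A : (Fin r → ℤ) → Module.End ℤ (lat V), ∀ v x,
      ((A v x : lat V) : Fin ρ → ℤ) = (M v).mulVec (x : Fin ρ → ℤ) :=
    ⟨fun v => (M v).mulVecLin.restrict (hlat v), fun v x => rfl⟩
  have hA0 : A 0 = 1 := by
    refine LinearMap.ext fun x => Subtype.ext ?_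
    rw [hA, hM0, Matrix.one_mulVec]
    rfl
  have hAadd : ∀ u v, A (u + v) = A u * A v := by
    intro u v
    refine LinearMap.ext fun x => Subtype.ext ?_
    rw [hA, hMadd, Module.End.mul_apply, hA, hA, Matrix.mulVec_mulVec]
  obtain ⟨M', hM'⟩ : ∃ M' : (Fin r → ℤ) → Matrix (Fin (r + 1)) (Fin (r + 1)) ℤ,
      M' = fun v => LinearMap.toMatrixAlgEquiv s (A v) := ⟨_, rfl⟩
  have hM'0 : M' 0 = 1 := by
    rw [hM']
    simp only []
    rw [hA0, map_one]
  have hM'add : ∀ u v, M' (u + v) = M' u * M' v := by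
    intro u v
    rw [hM']
    simp only []
    rw [hAadd, map_mul]
  -- compatibility
  have hcomp : ∀ v t, ι (TR (M' v) t) = TR (M v) (ι t) := by
    intro v
    have h1 : ι ∘ₗ TR (M' v) = TR (M v) ∘ₗ ι := by
      refine (Pi.basisFun ℝ (Fin (r + 1))).ext fun j => ?_
      rw [LinearMap.comp_apply, LinearMap.comp_apply, Pi.basisFun_apply, hιs, hei, TR_toRz, ← hA v,
        hι]
      have h2 : ∀ i, TR (M' v) (Pi.single j 1) i = (s.repr (A v (s j)) i : ℝ) := by
        intro i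
        rw [TR, Matrix.toLin'_apply, Matrix.mulVec_single_one]
        show ((M' v i j : ℤ) : ℝ) = _
        rw [hM']
        simp only []
        rw [LinearMap.toMatrixAlgEquiv_apply]
      have h3 : toRz ((∑ i, s.repr (A v (s j)) i • s i : lat V) : Fin ρ → ℤ) =
          toRz (A v (s j) : Fin ρ → ℤ) := by rw [s.sum_repr]
      rw [← h3]
      funext k
      unfold toRz
      rw [Submodule.coe_sum, Finset.sum_apply, Finset.sum_apply, Int.cast_sum]
      refine Finset.sum_congr rfl fun i _ => ?_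
      rw [Pi.smul_apply, h2, hei, smul_eq_mul, Submodule.coe_smul, Pi.smul_apply, smul_eq_mul,
        Int.cast_mul]
      rfl
    exact fun t => LinearMap.congr_fun h1 t
  -- the cone
  obtain ⟨C', hC'⟩ : ∃ C' : Set (Fin (r + 1) → ℝ), C' = ι ⁻¹' C := ⟨_, rfl⟩
  have hmem : ∀ t, t ∈ C' ↔ ι t ∈ C := fun t => by rw [hC']; rfl
  have hPC : PC C' := by
    refine ⟨?_, ?_, ?_, ?_⟩
    · rw [hC']
      exact hC.closed.preimage hιc
    · intro x hx y hy
      rw [hmem] at hx hy ⊢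
      rw [map_add]
      exact hC.add _ hx _ hy
    · intro a ha x hx
      rw [hmem] at hx ⊢
      rw [map_smul]
      exact hC.smul a ha _ hx
    · intro x hx hx'
      rw [hmem] at hx hx'
      rw [map_neg] at hx'
      exact hιinj x (hC.pointed _ hx hx')
  obtain ⟨q₀, hq₀V, hq₀⟩ := hq0
  obtain ⟨c₀, hc₀⟩ := hVι q₀ hq₀V
  obtain ⟨t₀, ht₀⟩ : ∃ t₀ : Fin (r + 1) → ℝ, t₀ = toR c₀ := ⟨_, rfl⟩
  rw [← ht₀] at hc₀
  obtain ⟨x₀, hx₀⟩ : ∃ x₀ : Fin ρ → ℝ, x₀ = toR q₀ := ⟨_, rfl⟩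
  rw [← hx₀] at hc₀ hq₀
  have ht₀int : t₀ ∈ interior C' := by
    rw [mem_interior]
    refine ⟨ι ⁻¹' interior C, ?_, isOpen_interior.preimage hιc, ?_⟩
    · rw [hC']
      exact Set.preimage_mono interior_subset
    · show ι t₀ ∈ interior C
      rwa [← hc₀]
  have hint : ∀ x ∈ interior C', ι x ∈ interior C := by
    intro x hx
    obtain ⟨ε, hε, hx'⟩ := interior_sub hx t₀
    have h1 : ι (x - ε • t₀) ∈ C := (hmem _).1 (interior_subset hx')
    have h2 : ι x = ε • x₀ + ι (x - ε • t₀) := by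
      rw [map_sub, map_smul, ← hc₀]
      abel
    rw [h2]
    exact interior_add_mem hC.add (interior_smul_mem hC.smul hε hq₀) h1
  -- growth
  obtain ⟨f, κ, hκ, hf⟩ := exists_pos_functional hC.closed hC.add hC.smul hC.pointed
  have hnorm : ∀ j, ∃ K : ℝ, 0 ≤ K ∧ ∀ v, ‖TR (M v) (Pi.single j 1)‖ ≤ K * ‖TR (M v) x₀‖ := by
    intro j
    obtain ⟨τ, hτ, hτ1⟩ := interior_sub hq₀ (Pi.single j 1)
    obtain ⟨τ', hτ', hτ2⟩ := interior_sub hq₀ (-(Pi.single j 1))
    refine ⟨τ'⁻¹ * ((τ + τ') / τ * ‖f‖ / κ + 1), by positivity, fun v => ?_⟩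
    obtain ⟨z, hz⟩ : ∃ z, z = TR (M v) (Pi.single j 1) := ⟨_, rfl⟩
    obtain ⟨y, hy⟩ : ∃ y, y = TR (M v) x₀ := ⟨_, rfl⟩
    have h1 : y - τ • z ∈ C := by
      have := hpres v _ (interior_subset hτ1)
      rwa [map_sub, map_smul, ← hz, ← hy] at this
    have h2 : y + τ' • z ∈ C := by
      have := hpres v _ (interior_subset hτ2)
      rw [map_sub, map_smul, map_neg, ← hz, ← hy, smul_neg, sub_neg_eq_add] at this
      exact this
    rw [← hz, ← hy]
    have h3 := hf _ h1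
    have h4 := hf _ h2
    have h5 : τ' * f (y - τ • z) + τ * f (y + τ' • z) = (τ + τ') * f y := by
      rw [map_sub, map_add, map_smul, map_smul, smul_eq_mul, smul_eq_mul]
      ring
    have h6 : f y ≤ ‖f‖ * ‖y‖ := (le_abs_self _).trans (f.le_opNorm y)
    have h7 : 0 ≤ f (y - τ • z) := le_trans (by positivity) h3
    have h8 : τ * (κ * ‖y + τ' • z‖) ≤ (τ + τ') * (‖f‖ * ‖y‖) := by
      have h9 := mul_le_mul_of_nonneg_left h4 hτ.le
      have h10 := mul_le_mul_of_nonneg_left h6 (add_pos hτ hτ').le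
      have h11 := mul_nonneg hτ'.le h7
      linarith
    have h9 : ‖y + τ' • z‖ ≤ (τ + τ') / τ * ‖f‖ / κ * ‖y‖ := by
      have e1 : (τ + τ') / τ * ‖f‖ / κ * ‖y‖ = (τ + τ') * (‖f‖ * ‖y‖) / (τ * κ) := by
        field_simp
      rw [e1, le_div_iff₀ (by positivity)]
      linarith
    have h10 : τ' * ‖z‖ ≤ ‖y + τ' • z‖ + ‖y‖ := by
      have e1 : ‖τ' • z‖ = τ' * ‖z‖ := by rw [norm_smul, Real.norm_eq_abs, abs_of_pos hτ']
      have e2 : τ' • z = (y + τ' • z) - y := by abel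
      rw [← e1]
      conv_lhs => rw [e2]
      exact norm_sub_le _ _
    rw [mul_assoc, inv_mul_eq_div, le_div_iff₀ hτ']
    linarith
  choose K hK0 hK using hnorm
  obtain ⟨Kt, hKt⟩ : ∃ Kt : ℝ, Kt = (∑ j, (ρ : ℝ) * K j) *
      (‖LinearMap.toContinuousLinearMap ι‖ * ‖t₀‖) + 1 := ⟨_, rfl⟩
  have hKs : 0 ≤ ∑ j, (ρ : ℝ) * K j := Finset.sum_nonneg fun j _ =>
    mul_nonneg (Nat.cast_nonneg _) (hK0 j)
  have hKt0 : 0 < Kt := by rw [hKt]; positivity
  have hgr : ∀ v, ∑ i, ∑ j, |(M v i j : ℝ)| ≤ Kt * ∑ j, ‖TR (M' v) (Pi.single j 1)‖ := by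
    intro v
    have h1 : ∑ i, ∑ j, |(M v i j : ℝ)| ≤ (∑ j, (ρ : ℝ) * K j) * ‖TR (M v) x₀‖ := by
      rw [Finset.sum_comm, Finset.sum_mul]
      refine Finset.sum_le_sum fun j _ => ?_
      have h3 : ∀ i, |(M v i j : ℝ)| ≤ K j * ‖TR (M v) x₀‖ := by
        intro i
        have h4 := norm_le_pi_norm (TR (M v) (Pi.single j 1)) i
        have h5 : TR (M v) (Pi.single j 1) i = (M v i j : ℝ) := by
          rw [TR, Matrix.toLin'_apply, Matrix.mulVec_single_one]
          rfl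
        rw [h5, Real.norm_eq_abs] at h4
        exact h4.trans (hK j v)
      refine (Finset.sum_le_sum fun i _ => h3 i).trans (le_of_eq ?_)
      rw [Finset.sum_const, Finset.card_univ, Fintype.card_fin, nsmul_eq_mul]
      ring
    have h2 : ‖TR (M v) x₀‖ ≤ (‖LinearMap.toContinuousLinearMap ι‖ * ‖t₀‖) *
        ∑ j, ‖TR (M' v) (Pi.single j 1)‖ := by
      rw [hc₀, ← hcomp, mul_assoc]
      refine ((LinearMap.toContinuousLinearMap ι).le_opNorm (TR (M' v) t₀)).trans ?_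
      refine mul_le_mul_of_nonneg_left ?_ (norm_nonneg _)
      have h3 : TR (M' v) t₀ = ∑ j, t₀ j • TR (M' v) (Pi.single j 1) := by
        conv_lhs => rw [← Finset.univ_sum_single t₀]
        rw [map_sum]
        refine Finset.sum_congr rfl fun j _ => ?_
        rw [← map_smul]
        congr 1
        funext i
        by_cases hij : i = j
        · subst hij
          simp
        · rw [Pi.single_eq_of_ne hij, Pi.smul_apply, Pi.single_eq_of_ne hij, smul_zero]
      rw [h3, Finset.mul_sum]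
      refine norm_sum_le_of_le _ fun j _ => ?_
      rw [norm_smul]
      exact mul_le_mul_of_nonneg_right (norm_le_pi_norm t₀ j) (norm_nonneg _)
    have h3 : 0 ≤ ∑ j, ‖TR (M' v) (Pi.single j 1)‖ := Finset.sum_nonneg fun _ _ => norm_nonneg _
    rw [hKt, add_mul, one_mul]
    have h4 := mul_le_mul_of_nonneg_left h2 hKs
    rw [← mul_assoc] at h4
    linarith
  obtain ⟨a, δ, ha, hδ, hg⟩ := hgrow
  have hact : Act r C' (fun v => TR (M' v)) := by
    refine ⟨hr, hPC, ⟨t₀, ht₀int⟩, ?_, fun u v => ?_, fun v x hx => ?_, a / Kt, δ,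
      div_pos ha hKt0, hδ, fun v => ?_⟩
    · show TR (M' 0) = 1
      rw [hM'0, TR_one]
    · show TR (M' (u + v)) = TR (M' u) * TR (M' v)
      rw [hM'add, TR_mul]
    · rw [hmem] at hx ⊢
      rw [hcomp]
      exact hpres v _ hx
    · rw [div_mul_eq_mul_div, div_le_iff₀ hKt0]
      have h1 := hg v
      have h2 := hgr v
      linarith
  obtain ⟨W, b, st⟩ := exists_str Pool.Agent.N386.CC.leafPF
    (Pool.Agent.N707.CC.leafCE Pool.Agent.N386.CC.leafPF) Pool.Agent.N769.CC.leafLIN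
    (Pool.Agent.N394.CC.leafIND Pool.Agent.N395.CC.leafSEP) hact
  obtain ⟨c, hc⟩ := hVι q hq
  obtain ⟨d, x, hd, hx⟩ := common c
  have hd' : (0 : ℝ) < d := by exact_mod_cast hd
  have hx1 : toRz x = (d : ℝ) • toR c := by
    rw [← toR_toQ, hx, toR_smul]
    push_cast
    rfl
  have hx2 : ι (toRz x) = (d : ℝ) • toR q := by rw [hx1, map_smul, ← hc]
  have h1 : toRz x ∈ interior C' := by
    refine st.integral (fun v x hx => TR_int _ hx) ?_ (fun i => ⟨x i, rfl⟩) ?_
    · rw [hmem, hx2]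
      exact hC.smul d hd'.le _ hqC
    · intro h0
      apply hqne
      rw [h0, map_zero] at hx2
      funext i
      have h2 := congrFun hx2 i
      rw [Pi.smul_apply, smul_eq_mul, Pi.zero_apply] at h2
      have h3 : toR q i = 0 := (mul_eq_zero.1 h2.symm).resolve_left hd'.ne'
      have h4 : ((q i : ℚ) : ℝ) = 0 := h3
      exact_mod_cast h4
  have h2 := hint _ h1
  rw [hx2] at h2
  have h3 := interior_smul_mem hC.smul (inv_pos.2 hd') h2
  rwa [smul_smul, inv_mul_cancel₀ hd'.ne', one_smul] at h3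

end Pool.Agent.N340.CC
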